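import Pool.Agent.Helper50.HY.Stmts2
import Pool.Agent.Helper21.HY.KLB

/-!
# HY, row KLG: lower bound of the kinetic energy of hydrogen systems, general `δ`
-/

set_option autoImplicit false

namespace Pool.Agent.Helper21.HY

open MeasureTheory Filter Pool.Agent.Helper95.PW Pool.Agent.Helper95.LN Pool.Agent.Helper95.CF
open Pool.Agent.Helper21.LN Pool.Agent.Helper21.CF Pool.Agent.Helper50.HY

theorem klg_ar (δ t n S k o : ℝ) (hδ : 0 < δ) (hsm : δ < 1 / 4) (ht : t = δ ^ 2 / 32)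
    (hn1 : 1 ≤ n) (hS2 : S ≤ 2) (hS0 : 0 ≤ S) (hnS1 : n - t * n ≤ n * S)
    (c1 : k ≤ -(1 / 4 * (n * S)) + 2 * (t * (n * S)) + 9 / 4 * t + o)
    (hone : (1 - 2 * δ) * o ≤ k + ((1 - 2 * δ) ^ 2 / 4 * (n * S) + t * (n * S))) :
    (1 / 4 - δ) * n ≤ k := by
  have ht0 : 0 < t := by rw [ht]; positivity
  have hl : 0 < 1 - 2 * δ := by linarith
  have hnS : 0 ≤ n * S := by positivity
  have hnS2 : n * S ≤ 2 * n := by
    have := mul_le_mul_of_nonneg_left hS2 (by linarith : (0 : ℝ) ≤ n)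
    linarith
  have c2 := mul_le_mul_of_nonneg_left c1 hl.le
  have c3 : (1 - 2 * δ) * (2 * (t * (n * S)) + 9 / 4 * t) ≤ 2 * (t * (n * S)) + 9 / 4 * t := by
    have : 0 ≤ 2 * (t * (n * S)) + 9 / 4 * t := by positivity
    exact mul_le_of_le_one_left this (by linarith)
  have c4 : (1 - 2 * δ) * (-(1 / 4 * (n * S)) + 2 * (t * (n * S)) + 9 / 4 * t + o) =
      -((1 - 2 * δ) / 4 * (n * S)) + (1 - 2 * δ) * (2 * (t * (n * S)) + 9 / 4 * t) +
        (1 - 2 * δ) * o := by ring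
  rw [c4] at c2
  have c5 : (1 - 2 * δ) ^ 2 / 4 * (n * S) = (1 - 2 * δ) / 4 * (n * S) -
      (1 - 2 * δ) * (δ / 2) * (n * S) := by ring
  rw [c5] at hone
  have c6 : (1 - 2 * δ) * (δ / 2) * (n * S) ≤ 2 * δ * k + 3 * (t * (n * S)) + 9 / 4 * t := by
    linarith
  have c7 : t * (n * S) ≤ 2 * (t * n) := by
    have := mul_le_mul_of_nonneg_left hnS2 ht0.le
    linarith
  have c8 : t ≤ t * n := le_mul_of_one_le_right ht0.le hn1
  have c9 : (1 - 2 * δ) * (δ / 2) * n - t * n ≤ (1 - 2 * δ) * (δ / 2) * (n * S) := by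
    have d0 : 0 ≤ (1 - 2 * δ) * (δ / 2) := by positivity
    have d1 := mul_le_mul_of_nonneg_left hnS1 d0
    have d2 : (1 - 2 * δ) * (δ / 2) ≤ 1 := by nlinarith
    have d3 := mul_le_mul_of_nonneg_right d2 (by positivity : 0 ≤ t * n)
    linarith
  have c10 : (1 - 2 * δ) * (δ / 2) * n - 10 * (t * n) ≤ 2 * δ * k := by
    have : 0 ≤ t * n := by positivity
    linarith
  have c11 : 2 * δ * ((1 / 4 - δ) * n) ≤ (1 - 2 * δ) * (δ / 2) * n - 10 * (t * n) := by
    have e : (1 - 2 * δ) * (δ / 2) * n - 10 * (t * n) - 2 * δ * ((1 / 4 - δ) * n) =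
        (11 / 16) * (δ ^ 2 * n) := by
      rw [ht]
      ring
    have : 0 ≤ δ ^ 2 * n := by positivity
    linarith
  exact le_of_mul_le_mul_left (c11.trans c10) (by positivity)

/-- row KLG -/
theorem KLG (h1 : ST_ES1X) (h2 : ST_KK) (h3 : ST_AED) (h4 : ST_CLS) (h5 : ST_QHM)
    (h6 : ST_INTM) : ST_KLG := by
  obtain ⟨C, hC, H4⟩ := h4
  intro δ hδ
  rcases le_or_gt (1 / 4) δ with hbig | hsm
  · refine ⟨1, 1, le_rfl, one_pos, ?_⟩
    intro n M X E d u hn hd hN hS hE hu hs1 hs2 hres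
    have k0 : 0 ≤ kin u := com_kin_nonneg u
    have k1 : (1 / 4 - δ) * (n : ℝ) ≤ 0 :=
      mul_nonpos_of_nonpos_of_nonneg (by linarith) (Nat.cast_nonneg n)
    linarith
  obtain ⟨t, ht⟩ : ∃ t : ℝ, t = δ ^ 2 / 32 := ⟨_, rfl⟩
  have ht0 : 0 < t := by rw [ht]; positivity
  have ht1 : t ≤ 1 / 500 := by
    rw [ht]
    nlinarith
  refine ⟨16 / t + C / t + 1, t ^ 2, ?_, by positivity, ?_⟩
  · have : 0 ≤ 16 / t + C / t := by positivity
    linarith
  intro n M X E d u hn hd hN hS hE hu hs1 hs2 hres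
  have g0 : 0 < 16 / t := by positivity
  have g1 : 0 < C / t := by positivity
  have hd1 : 1 ≤ d := by linarith
  have hd0 : 0 < d := by linarith
  have hn1 : (1 : ℝ) ≤ n := by exact_mod_cast hn
  have hl : 0 < 1 - 2 * δ := by linarith
  have hl1 : 1 - 2 * δ ≤ 1 := by linarith
  obtain ⟨hint, hone⟩ := H4 n M X d (1 - 2 * δ) u hd0 hl.le hS hu
  have a1 := klb_int h1 h3 h6 h2 1 d zero_le_one hd0 n M X (fun _ => (1 : ℝ)) u hS hN
    (fun _ => le_rfl) hu hint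
  have a2 := tls_Q h5 h6 X (fun _ => (1 : ℝ)) E t ht0 u hu
  obtain ⟨S, hSd⟩ : ∃ S : ℝ, S = Helper95.PW.sq u := ⟨_, rfl⟩
  rw [← hSd] at a1 a2 hone hs1 hs2
  have ht2 : t ^ 2 ≤ t := by nlinarith
  have hS2 : S ≤ 2 := by linarith
  have hS0 : 0 ≤ S := by linarith
  have b1 := mul_le_mul_of_nonneg_right hE hS0
  have hnS : 0 ≤ n * S := by positivity
  have hnS2 : n * S ≤ 2 * n := by
    have := mul_le_mul_of_nonneg_left hS2 (by positivity : (0 : ℝ) ≤ n)
    linarith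
  have hnS1 : (n : ℝ) - t * n ≤ n * S := by
    have c1 := mul_le_mul_of_nonneg_left hs1 (by positivity : (0 : ℝ) ≤ n)
    have c2 := mul_le_mul_of_nonneg_left ht2 (by positivity : (0 : ℝ) ≤ n)
    linarith
  have q1 : 8 * (1 + 1) / d ≤ t := by
    rw [div_le_iff₀ hd0]
    have e : 16 / t * t = 16 := by field_simp
    have c1 : 16 / t ≤ d := by linarith
    have c2 := mul_le_mul_of_nonneg_left c1 ht0.le
    linarith
  have q2 : C / d ^ 2 ≤ t := by
    rw [div_le_iff₀ (by positivity)]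
    have e : C / t * t = C := by field_simp
    have c1 : C / t ≤ d := by linarith
    have c2 := mul_le_mul_of_nonneg_left c1 ht0.le
    have c3 : d ≤ d ^ 2 := by nlinarith
    have c4 := mul_le_mul_of_nonneg_left c3 ht0.le
    linarith
  have b2 := mul_le_mul_of_nonneg_right q1 hnS
  have b3 := mul_le_mul_of_nonneg_right q2 hnS
  have b4 : 8 * (1 + 1) / d * n * S = 8 * (1 + 1) / d * (n * S) := by ring
  have b5 : ((1 - 2 * δ) ^ 2 / 4 + C / d ^ 2) * (n * S) =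
      (1 - 2 * δ) ^ 2 / 4 * (n * S) + C / d ^ 2 * (n * S) := by ring
  have b6 : -((1 / 4 - t ^ 2) * (n : ℝ)) * S = -(1 / 4 * (n * S)) + t ^ 2 * (n * S) := by ring
  have b7 : 1 / (4 * t) * resM X (fun _ => (1 : ℝ)) E u ≤ t / 4 := by
    calc 1 / (4 * t) * resM X (fun _ => (1 : ℝ)) E u ≤ 1 / (4 * t) * t ^ 2 :=
          mul_le_mul_of_nonneg_left hres (by positivity)
      _ = t / 4 := by field_simp
  have b8 : t ^ 2 * (n * S) ≤ t * (n * S) := mul_le_mul_of_nonneg_right ht2 hnS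
  have b9 : t * S ≤ 2 * t := by
    have := mul_le_mul_of_nonneg_left hS2 ht0.le
    linarith
  rw [b4] at a1
  rw [b5] at hone
  rw [b6] at b1
  refine klg_ar δ t n S (kin u) (one (near1 X d) u) hδ hsm ht hn1 hS2 hS0 hnS1 ?_ ?_
  · linarith
  · linarith

end Pool.Agent.Helper21.HY
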